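import Pool.Agent.Helper8.UL.Spec

/-! # UL, part ROWS: from a sweep to the discrete form -/

set_option autoImplicit false

open Set

namespace Pool.Agent.Helper85.UL

open Pool.UL

/-- the crossings of the edge `i → j` -/
def XS (E : ℕ → ℕ → Prop) (V : List ℕ) (τ : ℕ → ℕ) (c : ℕ → ℕ → ℕ → ℝ) (i j : ℕ) :
    Set ((ℕ × ℕ) × ℕ) :=
  {q | E q.1.1 q.1.2 ∧ q.1.2 ∈ V ∧ q.1 ≠ (i, j) ∧ τ i ≤ q.2 ∧ q.2 + 1 ≤ τ j ∧
    τ q.1.1 ≤ q.2 ∧ q.2 + 1 ≤ τ q.1.2 ∧
    (c i j q.2 - c q.1.1 q.1.2 q.2) * (c i j (q.2 + 1) - c q.1.1 q.1.2 (q.2 + 1)) < 0}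

/-- the data of a run -/
structure Dat (E : ℕ → ℕ → Prop) (V : List ℕ) (es : List Ev) (L : List (ℕ × ℕ)) (τ : ℕ → ℕ)
    (c : ℕ → ℕ → ℕ → ℝ) (cv : ℕ → ℝ) : Prop where
  m : ∀ i j, E i j → j ∈ V → i ∉ V → (i, j) ∈ L
  t0 : ∀ v ∈ V, 1 ≤ τ v
  t0' : ∀ v, v ∉ V → τ v = 0
  t1 : ∀ v ∈ V, ∀ w ∈ V, τ v = τ w → v = w
  t2 : ∀ i j, E i j → j ∈ V → τ i < τ j
  c0 : ∀ i j, E i j → j ∈ V → i ∉ V → c i j 0 = (L.idxOf (i, j) : ℝ)
  c1 : ∀ i j, E i j → j ∈ V → i ∈ V → c i j (τ i) = cv i
  c2 : ∀ i j, E i j → j ∈ V → c i j (τ j) = cv j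
  a : ∀ i j, E i j → j ∈ V → ∀ w ∈ V, w ≠ i → w ≠ j → τ i ≤ τ w → τ w ≤ τ j →
    c i j (τ w) ≠ cv w
  b : ∀ i j, E i j → j ∈ V → ∀ k l, E k l → l ∈ V → (k, l) ≠ (i, j) → ∀ r, τ i ≤ r → r ≤ τ j →
    τ k ≤ r → r ≤ τ l → c i j r = c k l r → ∃ w ∈ V, (w = i ∨ w = j) ∧ (w = k ∨ w = l) ∧ r = τ w
  x : ∀ i j, E i j → j ∈ V → (XS E V τ c i j).encard ≤ cr (i, j) es

/-- positions in the two rows of a swap -/
theorem pos4 {P A B S : List (ℕ × ℕ)} (h : (P ++ A ++ B ++ S).Nodup) (e : ℕ × ℕ) :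
    (∃ t, t < P.length ∧ (P ++ A ++ B ++ S).idxOf e = t ∧ (P ++ B ++ A ++ S).idxOf e = t) ∨
    (e ∈ A ∧ ∃ t, t < A.length ∧ (P ++ A ++ B ++ S).idxOf e = P.length + t ∧
      (P ++ B ++ A ++ S).idxOf e = P.length + B.length + t) ∨
    (e ∈ B ∧ ∃ t, t < B.length ∧ (P ++ A ++ B ++ S).idxOf e = P.length + A.length + t ∧
      (P ++ B ++ A ++ S).idxOf e = P.length + t) ∨
    (∃ t, (P ++ A ++ B ++ S).idxOf e = P.length + A.length + B.length + t ∧
      (P ++ B ++ A ++ S).idxOf e = P.length + A.length + B.length + t) := by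
  have hd := h
  simp only [List.nodup_append, List.mem_append] at hd
  obtain ⟨⟨⟨hP, hA, hPA⟩, hB, hPB⟩, hS, hPS⟩ := hd
  by_cases h1 : e ∈ P
  · left
    refine ⟨P.idxOf e, List.idxOf_lt_length_iff.2 h1, ?_, ?_⟩
    · rw [List.append_assoc, List.append_assoc, List.idxOf_append_of_mem h1]
    · rw [List.append_assoc, List.append_assoc, List.idxOf_append_of_mem h1]
  by_cases h2 : e ∈ A
  · right; left
    have h3 : e ∉ B := fun h3 => hPB e (Or.inr h2) e h3 rfl
    refine ⟨h2, A.idxOf e, List.idxOf_lt_length_iff.2 h2, ?_, ?_⟩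
    · rw [List.append_assoc, List.append_assoc, List.idxOf_append_of_notMem h1,
        List.idxOf_append_of_mem h2]
    · rw [List.append_assoc, List.append_assoc, List.idxOf_append_of_notMem h1,
        List.idxOf_append_of_notMem h3, List.idxOf_append_of_mem h2]
      omega
  by_cases h3 : e ∈ B
  · right; right; left
    refine ⟨h3, B.idxOf e, List.idxOf_lt_length_iff.2 h3, ?_, ?_⟩
    · rw [List.append_assoc, List.append_assoc, List.idxOf_append_of_notMem h1,
        List.idxOf_append_of_notMem h2, List.idxOf_append_of_mem h3]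
      omega
    · rw [List.append_assoc, List.append_assoc, List.idxOf_append_of_notMem h1,
        List.idxOf_append_of_mem h3]
  · right; right; right
    refine ⟨S.idxOf e, ?_, ?_⟩
    · rw [List.append_assoc, List.append_assoc, List.idxOf_append_of_notMem h1,
        List.idxOf_append_of_notMem h2, List.idxOf_append_of_notMem h3]
      omega
    · rw [List.append_assoc, List.append_assoc, List.idxOf_append_of_notMem h1,
        List.idxOf_append_of_notMem h3, List.idxOf_append_of_notMem h2]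
      omega

theorem neg_cast {a b c d : ℕ} (h : ((a : ℝ) - b) * ((c : ℝ) - d) < 0) :
    (a < b ∧ d < c) ∨ (b < a ∧ c < d) := by
  rcases mul_neg_iff.1 h with ⟨h1, h2⟩ | ⟨h1, h2⟩
  · right
    exact ⟨by exact_mod_cast sub_pos.1 h1, by exact_mod_cast sub_neg.1 h2⟩
  · left
    exact ⟨by exact_mod_cast sub_neg.1 h1, by exact_mod_cast sub_pos.1 h2⟩

theorem swap_cross {P A B S : List (ℕ × ℕ)} (h : (P ++ A ++ B ++ S).Nodup) {e e' : ℕ × ℕ}
    (hx : (((P ++ A ++ B ++ S).idxOf e : ℝ) - ((P ++ A ++ B ++ S).idxOf e' : ℝ)) *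
      (((P ++ B ++ A ++ S).idxOf e : ℝ) - ((P ++ B ++ A ++ S).idxOf e' : ℝ)) < 0) :
    (e ∈ A ∧ e' ∈ B) ∨ (e ∈ B ∧ e' ∈ A) := by
  have h0 := neg_cast hx
  rcases pos4 h e with ⟨t, ht, h1, h2⟩ | ⟨hm, t, ht, h1, h2⟩ | ⟨hm, t, ht, h1, h2⟩ |
    ⟨t, h1, h2⟩ <;>
  rcases pos4 h e' with ⟨t', ht', h1', h2'⟩ | ⟨hm', t', ht', h1', h2'⟩ |
    ⟨hm', t', ht', h1', h2'⟩ | ⟨t', h1', h2'⟩ <;>
  rw [h1, h2, h1', h2'] at h0 <;>
  first
    | exact Or.inl ⟨hm, hm'⟩
    | exact Or.inr ⟨hm, hm'⟩
    | (exfalso; omega)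

open Classical in
/-- the position in the row `P ++ [v] ++ S` -/
noncomputable def pos1 (P S : List (ℕ × ℕ)) (e : ℕ × ℕ) : ℕ :=
  if e ∈ P then P.idxOf e else if e ∈ S then P.length + 1 + S.idxOf e else P.length

/-- positions in the rows at a vertex -/
theorem pos3 {P X S : List (ℕ × ℕ)} (h : (P ++ X ++ S).Nodup) {e : ℕ × ℕ}
    (he : e ∈ P ++ X ++ S) :
    (e ∈ P ∧ ∃ t, t < P.length ∧ (P ++ X ++ S).idxOf e = t ∧ pos1 P S e = t) ∨
    (e ∈ X ∧ ∃ t, t < X.length ∧ (P ++ X ++ S).idxOf e = P.length + t ∧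
      pos1 P S e = P.length) ∨
    (e ∈ S ∧ ∃ t, (P ++ X ++ S).idxOf e = P.length + X.length + t ∧
      pos1 P S e = P.length + 1 + t) := by
  have hd := h
  simp only [List.nodup_append, List.mem_append] at hd
  obtain ⟨⟨hP, hX, hPX⟩, hS, hPS⟩ := hd
  by_cases h1 : e ∈ P
  · left
    refine ⟨h1, P.idxOf e, List.idxOf_lt_length_iff.2 h1, ?_, ?_⟩
    · rw [List.append_assoc, List.idxOf_append_of_mem h1]
    · unfold pos1; rw [if_pos h1]
  by_cases h2 : e ∈ X
  · right; left
    have h3 : e ∉ S := fun h3 => hPS e (Or.inr h2) e h3 rfl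
    refine ⟨h2, X.idxOf e, List.idxOf_lt_length_iff.2 h2, ?_, ?_⟩
    · rw [List.append_assoc, List.idxOf_append_of_notMem h1, List.idxOf_append_of_mem h2]
    · unfold pos1; rw [if_neg h1, if_neg h3]
  · right; right
    have h3 : e ∈ S := by
      simp only [List.mem_append] at he
      tauto
    refine ⟨h3, S.idxOf e, ?_, ?_⟩
    · rw [List.append_assoc, List.idxOf_append_of_notMem h1, List.idxOf_append_of_notMem h2]
      omega
    · unfold pos1; rw [if_neg h1, if_pos h3]

theorem vert_mono {P X S : List (ℕ × ℕ)} (h : (P ++ X ++ S).Nodup) {e e' : ℕ × ℕ}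
    (he : e ∈ P ++ X ++ S) (he' : e' ∈ P ++ X ++ S) :
    ¬ (((P ++ X ++ S).idxOf e : ℝ) - ((P ++ X ++ S).idxOf e' : ℝ)) *
      ((pos1 P S e : ℝ) - (pos1 P S e' : ℝ)) < 0 := by
  intro hx
  have h0 := neg_cast hx
  rcases pos3 h he with ⟨-, t, ht, h1, h2⟩ | ⟨-, t, ht, h1, h2⟩ | ⟨-, t, h1, h2⟩ <;>
  rcases pos3 h he' with ⟨-, t', ht', h1', h2'⟩ | ⟨-, t', ht', h1', h2'⟩ |
    ⟨-, t', h1', h2'⟩ <;>
  rw [h1, h2, h1', h2'] at h0 <;> omega

theorem idx_inj {L : List (ℕ × ℕ)} {e e' : ℕ × ℕ} (he : e ∈ L)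
    (h : L.idxOf e = L.idxOf e') : e = e' := (List.idxOf_inj he).1 h

theorem cr_cons (e : ℕ × ℕ) (ev : Ev) (es : List Ev) :
    cr e (ev :: es) = crE e ev + cr e es := by
  simp [cr]

theorem encard_list_le (L : List (ℕ × ℕ)) : ({e | e ∈ L} : Set (ℕ × ℕ)).encard ≤ L.length := by
  classical
  have : ({e | e ∈ L} : Set (ℕ × ℕ)) = (L.toFinset : Set (ℕ × ℕ)) := by
    ext e; simp
  rw [this, Set.encard_coe_eq_coe_finsetCard]
  exact_mod_cast L.toFinset_card_le

/-- the swap step -/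
theorem swap_step {E : ℕ → ℕ → Prop} {P A B S : List (ℕ × ℕ)} {es : List Ev}
    (hnd : (P ++ A ++ B ++ S).Nodup) {V : List ℕ} {τ : ℕ → ℕ} {c : ℕ → ℕ → ℕ → ℝ} {cv : ℕ → ℝ}
    (h : Dat E V es (P ++ B ++ A ++ S) τ c cv) :
    ∃ τ c cv, Dat E V (Ev.swap A B :: es) (P ++ A ++ B ++ S) τ c cv := by
  classical
  have hmem : ∀ e, e ∈ P ++ B ++ A ++ S ↔ e ∈ P ++ A ++ B ++ S := by
    intro e; simp only [List.mem_append]; tauto
  let τ' : ℕ → ℕ := fun v => if v ∈ V then τ v + 1 else 0
  let c' : ℕ → ℕ → ℕ → ℝ := fun i j r => match r with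
    | 0 => ((P ++ A ++ B ++ S).idxOf (i, j) : ℝ)
    | r + 1 => c i j r
  have τV : ∀ v, v ∈ V → τ' v = τ v + 1 := fun v hv => if_pos hv
  have τN : ∀ v, v ∉ V → τ' v = 0 := fun v hv => if_neg hv
  have τle : ∀ v r, τ' v ≤ r + 1 → τ v ≤ r := by
    intro v r hr
    by_cases hv : v ∈ V
    · rw [τV v hv] at hr; omega
    · rw [h.t0' v hv]; omega
  have τz : ∀ v, τ' v ≤ 0 → v ∉ V := by
    intro v hr hv
    rw [τV v hv] at hr; omega
  have cS : ∀ i j r, c' i j (r + 1) = c i j r := fun _ _ _ => rfl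
  have cZ : ∀ i j, c' i j 0 = ((P ++ A ++ B ++ S).idxOf (i, j) : ℝ) := fun _ _ => rfl
  refine ⟨τ', c', cv, ?_⟩
  constructor
  · intro i j h1 h2 h3
    exact (hmem _).1 (h.m i j h1 h2 h3)
  · intro v hv; rw [τV v hv]; omega
  · exact τN
  · intro v hv w hw hvw
    rw [τV v hv, τV w hw] at hvw
    exact h.t1 v hv w hw (by omega)
  · intro i j h1 h2
    have := h.t2 i j h1 h2
    rw [τV j h2]
    by_cases hi : i ∈ V
    · rw [τV i hi]; omega
    · rw [τN i hi]; omega
  · intro i j _ _ _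
    exact cZ i j
  · intro i j h1 h2 h3
    rw [τV i h3, cS]
    exact h.c1 i j h1 h2 h3
  · intro i j h1 h2
    rw [τV j h2, cS]
    exact h.c2 i j h1 h2
  · intro i j h1 h2 w hw hwi hwj h3 h4
    rw [τV w hw] at h3 h4 ⊢
    rw [τV j h2] at h4
    rw [cS]
    exact h.a i j h1 h2 w hw hwi hwj (τle i _ h3) (by omega)
  · intro i j h1 h2 k l h3 h4 hne r r1 r2 r3 r4 he
    rcases r with _ | r
    · exfalso
      have hi := τz i r1
      have hk := τz k r3
      have m1 := (hmem _).1 (h.m i j h1 h2 hi)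
      rw [cZ, cZ] at he
      exact hne (idx_inj m1 (by exact_mod_cast he)).symm
    · rw [cS, cS] at he
      rw [τV j h2] at r2
      rw [τV l h4] at r4
      obtain ⟨w, hw, e1, e2, e3⟩ := h.b i j h1 h2 k l h3 h4 hne r (τle i _ r1) (by omega)
        (τle k _ r3) (by omega) he
      exact ⟨w, hw, e1, e2, by rw [τV w hw, e3]⟩
  · intro i j h1 h2
    have hsub : XS E V τ' c' i j ⊆ ((fun q : (ℕ × ℕ) × ℕ => (q.1, q.2 + 1)) '' XS E V τ c i j) ∪
        ((fun e : ℕ × ℕ => (e, 0)) '' {e | ((i, j) ∈ A ∧ e ∈ B) ∨ ((i, j) ∈ B ∧ e ∈ A)}) := by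
      rintro ⟨⟨k, l⟩, r⟩ ⟨q1, q2, q3, q4, q5, q6, q7, q8⟩
      dsimp only at q1 q2 q3 q4 q5 q6 q7 q8
      rcases r with _ | r
      · right
        refine ⟨(k, l), ?_, rfl⟩
        have hi := τz i q4
        have hk := τz k q6
        rw [cZ, cZ, cS, cS, h.c0 i j h1 h2 hi, h.c0 k l q1 q2 hk] at q8
        exact swap_cross hnd q8
      · left
        rw [τV j h2] at q5
        rw [τV l q2] at q7
        have g1 : r + 1 ≤ τ j := by omega
        have g2 : r + 1 ≤ τ l := by omega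
        refine ⟨((k, l), r), ⟨q1, q2, q3, τle i _ q4, g1, τle k _ q6, g2, ?_⟩, rfl⟩
        simpa only [cS] using q8
    have hnd' := hnd
    simp only [List.nodup_append, List.mem_append] at hnd'
    have hN : ({e | ((i, j) ∈ A ∧ e ∈ B) ∨ ((i, j) ∈ B ∧ e ∈ A)} : Set (ℕ × ℕ)).encard ≤
        crE (i, j) (Ev.swap A B) := by
      by_cases hA : (i, j) ∈ A
      · have hB : (i, j) ∉ B := fun hB => hnd'.1.2.2 _ (Or.inr hA) _ hB rfl
        refine (Set.encard_le_encard (t := {e | e ∈ B}) ?_).trans ((encard_list_le B).trans ?_)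
        · rintro e (⟨-, he⟩ | ⟨he, -⟩)
          · exact he
          · exact absurd he hB
        · have : 1 ≤ A.count (i, j) := List.count_pos_iff.2 hA
          have h5 : B.length ≤ crE (i, j) (Ev.swap A B) := by
            show B.length ≤ A.count (i, j) * B.length + B.count (i, j) * A.length
            nlinarith
          exact_mod_cast h5
      · by_cases hB : (i, j) ∈ B
        · refine (Set.encard_le_encard (t := {e | e ∈ A}) ?_).trans ((encard_list_le A).trans ?_)
          · rintro e (⟨he, -⟩ | ⟨-, he⟩)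
            · exact absurd he hA
            · exact he
          · have : 1 ≤ B.count (i, j) := List.count_pos_iff.2 hB
            have h5 : A.length ≤ crE (i, j) (Ev.swap A B) := by
              show A.length ≤ A.count (i, j) * B.length + B.count (i, j) * A.length
              nlinarith
            exact_mod_cast h5
        · have : ({e | ((i, j) ∈ A ∧ e ∈ B) ∨ ((i, j) ∈ B ∧ e ∈ A)} : Set (ℕ × ℕ)) = ∅ := by
            ext e; simp [hA, hB]
          rw [this, Set.encard_empty]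
          exact bot_le
    refine (Set.encard_le_encard hsub).trans ((Set.encard_union_le _ _).trans ?_)
    rw [cr_cons, add_comm (crE _ _), Nat.cast_add]
    exact add_le_add ((Set.encard_image_le _ _).trans (h.x i j h1 h2))
      ((Set.encard_image_le _ _).trans hN)

/-- the vertex step -/
theorem vert_step {E : ℕ → ℕ → Prop} {P I O S : List (ℕ × ℕ)} {v : ℕ} {es : List Ev}
    (hirr : ¬ E v v)
    (hnd : (P ++ I ++ S).Nodup) (hnd' : (P ++ O ++ S).Nodup)
    (hI : ∀ e, e ∈ I ↔ e.2 = v ∧ E e.1 v) (hO : ∀ e, e ∈ O ↔ e.1 = v ∧ E v e.2)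
    (hL : ∀ e ∈ P ++ I ++ S, e.1 ≠ v ∧ e.1 ∉ vs es) (hv : v ∉ vs es)
    {τ : ℕ → ℕ} {c : ℕ → ℕ → ℕ → ℝ} {cv : ℕ → ℝ}
    (h : Dat E (vs es) es (P ++ O ++ S) τ c cv) :
    ∃ τ c cv, Dat E (v :: vs es) (Ev.vert v I O :: es) (P ++ I ++ S) τ c cv := by
  classical
  obtain ⟨V, hVe⟩ : ∃ V, V = vs es := ⟨_, rfl⟩
  rw [← hVe] at hL hv h ⊢
  let τ' : ℕ → ℕ := fun w => if w = v then 1 else if w ∈ V then τ w + 2 else 0
  let c' : ℕ → ℕ → ℕ → ℝ := fun i j r => match r with
    | 0 => ((P ++ I ++ S).idxOf (i, j) : ℝ)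
    | 1 => (pos1 P S (i, j) : ℝ)
    | r + 2 => c i j r
  let cv' : ℕ → ℝ := fun w => if w = v then (P.length : ℝ) else cv w
  have τv : τ' v = 1 := if_pos rfl
  have neV : ∀ w, w ∈ V → w ≠ v := fun w hw h0 => hv (h0 ▸ hw)
  have τV : ∀ w, w ∈ V → τ' w = τ w + 2 := by
    intro w hw
    show (if w = v then 1 else if w ∈ V then τ w + 2 else 0) = _
    rw [if_neg (neV w hw), if_pos hw]
  have τN : ∀ w, w ≠ v → w ∉ V → τ' w = 0 := by
    intro w hw hw'
    show (if w = v then 1 else if w ∈ V then τ w + 2 else 0) = _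
    rw [if_neg hw, if_neg hw']
  have cvv : cv' v = P.length := if_pos rfl
  have cvV : ∀ w, w ∈ V → cv' w = cv w := fun w hw => if_neg (neV w hw)
  have τle : ∀ w r, τ' w ≤ r + 2 → τ w ≤ r := by
    intro w r hr
    by_cases hw : w ∈ V
    · rw [τV w hw] at hr; omega
    · rw [h.t0' w hw]; omega
  have τz : ∀ w, τ' w ≤ 0 → w ≠ v ∧ w ∉ V := by
    intro w hr
    constructor
    · rintro rfl; rw [τv] at hr; omega
    · intro hw; rw [τV w hw] at hr; omega
  have τo : ∀ w, τ' w ≤ 1 → w ∉ V := by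
    intro w hr hw
    rw [τV w hw] at hr; omega
  have cS : ∀ i j r, c' i j (r + 2) = c i j r := fun _ _ _ => rfl
  have cZ : ∀ i j, c' i j 0 = ((P ++ I ++ S).idxOf (i, j) : ℝ) := fun _ _ => rfl
  have cO : ∀ i j, c' i j 1 = (pos1 P S (i, j) : ℝ) := fun _ _ => rfl
  -- membership in the row
  have hm : ∀ i j, E i j → j ∈ v :: V → i ∉ v :: V → (i, j) ∈ P ++ I ++ S := by
    intro i j h1 h2 h3
    rw [List.mem_cons, not_or] at h3
    rcases List.mem_cons.1 h2 with rfl | h2
    · have : (i, j) ∈ I := (hI _).2 ⟨rfl, h1⟩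
      simp [this]
    · have := h.m i j h1 h2 h3.2
      simp only [List.mem_append] at this ⊢
      rcases this with (h4 | h4) | h4
      · exact Or.inl (Or.inl h4)
      · exact absurd ((hO _).1 h4).1 h3.1
      · exact Or.inr h4
  -- positions in the middle row
  have hPS : ∀ e, e ∈ P ∨ e ∈ S → pos1 P S e ≠ P.length := by
    intro e he
    have : e ∈ P ++ I ++ S := by
      simp only [List.mem_append]; tauto
    have hd := hnd
    simp only [List.nodup_append, List.mem_append] at hd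
    rcases pos3 hnd this with ⟨-, t, ht, h1, h2⟩ | ⟨h0, t, ht, h1, h2⟩ | ⟨-, t, h1, h2⟩
    · omega
    · exfalso
      rcases he with he | he
      · exact hd.1.2.2 e he e h0 rfl
      · exact hd.2.2 e (Or.inr h0) e he rfl
    · omega
  have hPSi : ∀ e e', (e ∈ P ∨ e ∈ S) → (e' ∈ P ∨ e' ∈ S) → pos1 P S e = pos1 P S e' →
      e = e' := by
    intro e e' he he' heq
    have m1 : e ∈ P ++ I ++ S := by
      simp only [List.mem_append]; tauto
    have m2 : e' ∈ P ++ I ++ S := by
      simp only [List.mem_append]; tauto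
    have n1 := hPS e he
    have n2 := hPS e' he'
    apply idx_inj m1
    rcases pos3 hnd m1 with ⟨-, t, ht, h1, h2⟩ | ⟨h0, t, ht, h1, h2⟩ | ⟨-, t, h1, h2⟩ <;>
    rcases pos3 hnd m2 with ⟨-, t', ht', h1', h2'⟩ | ⟨h0', t', ht', h1', h2'⟩ |
      ⟨-, t', h1', h2'⟩ <;> omega
  have hcls : ∀ i j, E i j → j ∈ v :: V → τ' i ≤ 1 →
      ((i = v ∨ j = v) ∧ pos1 P S (i, j) = P.length) ∨
        (i ≠ v ∧ j ≠ v ∧ ((i, j) ∈ P ∨ (i, j) ∈ S)) := by
    intro i j h1 h2 h3
    have hiV := τo i h3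
    by_cases hj : j = v
    · left
      refine ⟨Or.inr hj, ?_⟩
      have hin : (i, j) ∈ I := (hI _).2 ⟨hj, hj ▸ h1⟩
      have hd := hnd
      simp only [List.nodup_append, List.mem_append] at hd
      unfold pos1
      rw [if_neg (fun h0 => hd.1.2.2 _ h0 _ hin rfl),
        if_neg (fun h0 => hd.2.2 _ (Or.inr hin) _ h0 rfl)]
    · have hjV : j ∈ V := (List.mem_cons.1 h2).resolve_left hj
      have hin := h.m i j h1 hjV hiV
      by_cases hi : i = v
      · left
        refine ⟨Or.inl hi, ?_⟩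
        have hin : (i, j) ∈ O := (hO _).2 ⟨hi, hi ▸ h1⟩
        have hd := hnd'
        simp only [List.nodup_append, List.mem_append] at hd
        unfold pos1
        rw [if_neg (fun h0 => hd.1.2.2 _ h0 _ hin rfl),
          if_neg (fun h0 => hd.2.2 _ (Or.inr hin) _ h0 rfl)]
      · right
        refine ⟨hi, hj, ?_⟩
        simp only [List.mem_append] at hin
        rcases hin with (h4 | h4) | h4
        · exact Or.inl h4
        · exact absurd ((hO _).1 h4).1 hi
        · exact Or.inr h4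
  refine ⟨τ', c', cv', ?_⟩
  constructor
  · exact hm
  · intro w hw
    rcases List.mem_cons.1 hw with rfl | hw
    · rw [τv]
    · rw [τV w hw]; omega
  · intro w hw
    rw [List.mem_cons, not_or] at hw
    exact τN w hw.1 hw.2
  · intro w hw w' hw' heq
    rcases List.mem_cons.1 hw with h5 | h5
    · rcases List.mem_cons.1 hw' with h6 | h6
      · rw [h5, h6]
      · rw [h5, τv, τV _ h6] at heq; omega
    · rcases List.mem_cons.1 hw' with h6 | h6
      · rw [h6, τv, τV _ h5] at heq; omega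
      · rw [τV _ h5, τV _ h6] at heq
        exact h.t1 w h5 w' h6 (by omega)
  · intro i j h1 h2
    rcases List.mem_cons.1 h2 with rfl | h2
    · have hin : (i, j) ∈ P ++ I ++ S := by
        have : (i, j) ∈ I := (hI _).2 ⟨rfl, h1⟩
        simp [this]
      have := hL _ hin
      rw [τv, τN i this.1 this.2]
      omega
    · rw [τV j h2]
      by_cases hi : i ∈ V
      · rw [τV i hi]
        have := h.t2 i j h1 h2
        omega
      · by_cases hiv : i = v
        · rw [hiv, τv]; omega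
        · rw [τN i hiv hi]; omega
  · intro i j _ _ _
    exact cZ i j
  · intro i j h1 h2 h3
    rcases List.mem_cons.1 h3 with rfl | h3V
    · rw [τv, cO, cvv]
      rcases hcls i j h1 h2 τv.le with h4 | h4
      · exact_mod_cast h4.2
      · exact absurd rfl h4.1
    · rcases List.mem_cons.1 h2 with h2V | h2V
      · exfalso
        have hin : (i, j) ∈ P ++ I ++ S := by
          have : (i, j) ∈ I := (hI _).2 ⟨h2V, h2V ▸ h1⟩
          simp [this]
        exact (hL _ hin).2 h3V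
      · rw [τV i h3V, cS, cvV i h3V]
        exact h.c1 i j h1 h2V h3V
  · intro i j h1 h2
    rcases List.mem_cons.1 h2 with rfl | h2
    · rw [τv, cO, cvv]
      have hin : (i, j) ∈ P ++ I ++ S := by
        have : (i, j) ∈ I := (hI _).2 ⟨rfl, h1⟩
        simp [this]
      have h5 := hL _ hin
      rcases hcls i j h1 (List.mem_cons_self) (by rw [τN i h5.1 h5.2]; omega) with h4 | h4
      · exact_mod_cast h4.2
      · exact absurd rfl h4.2.1
    · rw [τV j h2, cS, cvV j h2]
      exact h.c2 i j h1 h2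
  · intro i j h1 h2 w hw hwi hwj h3 h4
    rcases List.mem_cons.1 hw with rfl | hw
    · rw [τv] at h3 h4 ⊢
      rw [cO, cvv]
      rcases hcls i j h1 h2 h3 with h5 | h5
      · rcases h5.1 with h6 | h6
        · exact absurd h6.symm hwi
        · exact absurd h6.symm hwj
      · have := hPS _ h5.2.2
        exact_mod_cast this
    · rw [τV w hw] at h3 h4 ⊢
      have hjv : j ≠ v := by
        rintro rfl
        rw [τv] at h4; omega
      have hjV : j ∈ V := (List.mem_cons.1 h2).resolve_left hjv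
      rw [τV j hjV] at h4
      rw [cS, cvV w hw]
      exact h.a i j h1 hjV w hw hwi hwj (τle i _ h3) (by omega)
  · intro i j h1 h2 k l h3 h4 hne r r1 r2 r3 r4 he
    rcases r with _ | _ | r
    · exfalso
      have hi := τz i r1
      have m1 := hm i j h1 h2 (by rw [List.mem_cons, not_or]; exact hi)
      rw [cZ, cZ] at he
      exact hne (idx_inj m1 (by exact_mod_cast he)).symm
    · rw [zero_add] at r1 r2 r3 r4 he ⊢
      rw [cO, cO] at he
      have he' : pos1 P S (i, j) = pos1 P S (k, l) := by exact_mod_cast he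
      rcases hcls i j h1 h2 r1 with h5 | h5
      · rcases hcls k l h3 h4 r3 with h6 | h6
        · refine ⟨v, List.mem_cons_self, ?_, ?_, τv.symm⟩
          · rcases h5.1 with h7 | h7
            · exact Or.inl h7.symm
            · exact Or.inr h7.symm
          · rcases h6.1 with h7 | h7
            · exact Or.inl h7.symm
            · exact Or.inr h7.symm
        · exfalso
          rw [h5.2] at he'
          exact hPS _ h6.2.2 he'.symm
      · rcases hcls k l h3 h4 r3 with h6 | h6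
        · exfalso
          rw [h6.2] at he'
          exact hPS _ h5.2.2 he'
        · exfalso
          exact hne (hPSi _ _ h5.2.2 h6.2.2 he').symm
    · have hjv : j ≠ v := by
        rintro rfl
        rw [τv] at r2; omega
      have hlv : l ≠ v := by
        rintro rfl
        rw [τv] at r4; omega
      have hjV : j ∈ V := (List.mem_cons.1 h2).resolve_left hjv
      have hlV : l ∈ V := (List.mem_cons.1 h4).resolve_left hlv
      rw [τV j hjV] at r2
      rw [τV l hlV] at r4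
      rw [cS, cS] at he
      obtain ⟨w, hw, e1, e2, e3⟩ := h.b i j h1 hjV k l h3 hlV hne r (τle i _ r1) (by omega)
        (τle k _ r3) (by omega) he
      exact ⟨w, List.mem_cons_of_mem _ hw, e1, e2, by rw [τV w hw, e3]⟩
  · intro i j h1 h2
    have hcr : cr (i, j) (Ev.vert v I O :: es) = cr (i, j) es := by
      rw [cr_cons]
      show 0 + _ = _
      rw [zero_add]
    rw [hcr]
    have hsub : XS E (v :: V) τ' c' i j ⊆
        ((fun q : (ℕ × ℕ) × ℕ => (q.1, q.2 + 2)) '' {q | j ∈ V ∧ q ∈ XS E V τ c i j}) := by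
      rintro ⟨⟨k, l⟩, r⟩ ⟨q1, q2, q3, q4, q5, q6, q7, q8⟩
      dsimp only at q1 q2 q3 q4 q5 q6 q7 q8
      rcases r with _ | _ | r
      · exfalso
        have hi := τz i q4
        have hk := τz k q6
        have m1 := hm i j h1 h2 (by rw [List.mem_cons, not_or]; exact hi)
        have m2 := hm k l q1 q2 (by rw [List.mem_cons, not_or]; exact hk)
        rw [zero_add, cZ, cZ, cO, cO] at q8
        exact vert_mono hnd m1 m2 q8
      · exfalso
        rw [zero_add] at q4 q5 q6 q7 q8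
        have hjv : j ≠ v := by
          rintro rfl
          rw [τv] at q5; omega
        have hlv : l ≠ v := by
          rintro rfl
          rw [τv] at q7; omega
        have hjV : j ∈ V := (List.mem_cons.1 h2).resolve_left hjv
        have hlV : l ∈ V := (List.mem_cons.1 q2).resolve_left hlv
        have hi := τo i q4
        have hk := τo k q6
        have m1 := h.m i j h1 hjV hi
        have m2 := h.m k l q1 hlV hk
        have c2 : ∀ i j, c' i j (1 + 1) = c i j 0 := fun _ _ => rfl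
        rw [cO, cO, c2, c2, h.c0 i j h1 hjV hi, h.c0 k l q1 hlV hk, mul_comm] at q8
        exact vert_mono hnd' m1 m2 q8
      · have hjv : j ≠ v := by
          rintro rfl
          rw [τv] at q5; omega
        have hlv : l ≠ v := by
          rintro rfl
          rw [τv] at q7; omega
        have hjV : j ∈ V := (List.mem_cons.1 h2).resolve_left hjv
        have hlV : l ∈ V := (List.mem_cons.1 q2).resolve_left hlv
        rw [τV j hjV] at q5
        rw [τV l hlV] at q7
        have g1 : r + 1 ≤ τ j := by omega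
        have g2 : r + 1 ≤ τ l := by omega
        refine ⟨((k, l), r), ⟨hjV, q1, hlV, q3, τle i _ q4, g1, τle k _ q6, g2, ?_⟩, rfl⟩
        have c3 : ∀ i j, c' i j (r + 1 + 1 + 1) = c i j (r + 1) := fun _ _ => rfl
        have c4 : ∀ i j, c' i j (r + 1 + 1) = c i j r := fun _ _ => rfl
        simpa only [c3, c4] using q8
    refine (Set.encard_le_encard hsub).trans ((Set.encard_image_le _ _).trans ?_)
    by_cases hjV : j ∈ V
    · have : {q | j ∈ V ∧ q ∈ XS E V τ c i j} = XS E V τ c i j := by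
        ext q; simp [hjV]
      rw [this]
      exact h.x i j h1 hjV
    · have : {q | j ∈ V ∧ q ∈ XS E V τ c i j} = ∅ := by
        ext q; simp [hjV]
      rw [this, Set.encard_empty]
      exact bot_le

theorem vs_swap (A B : List (ℕ × ℕ)) (es : List Ev) : vs (Ev.swap A B :: es) = vs es := rfl

theorem vs_vert (v : ℕ) (I O : List (ℕ × ℕ)) (es : List Ev) :
    vs (Ev.vert v I O :: es) = v :: vs es := rfl

theorem core {E : ℕ → ℕ → Prop} (hirr : ∀ v, ¬ E v v) {L : List (ℕ × ℕ)} {es : List Ev}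
    {L' : List (ℕ × ℕ)} (hrun : Run L es L') : L.Nodup → (∀ e ∈ L, e.1 ∉ vs es) →
    (∀ ev ∈ es, OKE E ev) → (vs es).Nodup → ∃ τ c cv, Dat E (vs es) es L τ c cv := by
  induction hrun with
  | nil L =>
    intro _ _ _ _
    refine ⟨fun _ => 0, fun _ _ _ => 0, fun _ => 0, ?_⟩
    constructor <;> simp [vs]
  | swap P A B S h ih =>
    intro hnd hL hOK hvs
    rw [vs_swap] at hL hvs ⊢
    have hmem : ∀ e, e ∈ P ++ B ++ A ++ S → e ∈ P ++ A ++ B ++ S := by
      intro e; simp only [List.mem_append]; tauto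
    have hnd2 : (P ++ B ++ A ++ S).Nodup := by
      have : (P ++ B ++ A ++ S).Perm (P ++ A ++ B ++ S) := by
        apply List.Perm.append_right
        rw [List.append_assoc, List.append_assoc]
        exact List.Perm.append_left _ List.perm_append_comm
      exact this.nodup_iff.2 hnd
    obtain ⟨τ, c, cv, hD⟩ := ih hnd2 (fun e he => hL e (hmem e he))
      (fun ev hev => hOK ev (List.mem_cons_of_mem _ hev)) hvs
    exact swap_step hnd hD
  | vert P I v O S h ih =>
    intro hnd hL hOK hvs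
    rw [vs_vert] at hL hvs ⊢
    rw [List.nodup_cons] at hvs
    obtain ⟨hv, hvs⟩ := hvs
    have hev := hOK _ List.mem_cons_self
    obtain ⟨⟨hI1, hI2⟩, hO1, hO2⟩ := hev
    have hnd' : (P ++ O ++ S).Nodup := by
      have hd := hnd
      simp only [List.nodup_append, List.mem_append] at hd ⊢
      obtain ⟨⟨hP, hI, hPI⟩, hS, hPS⟩ := hd
      refine ⟨⟨hP, hO1, ?_⟩, hS, ?_⟩
      · rintro e he e' he' rfl
        have h1 := ((hO2 _).1 he').1
        have h2 := hL e (by simp [he])
        rw [List.mem_cons, not_or] at h2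
        exact h2.1 h1
      · rintro e (he | he) e' he' rfl
        · exact hPS e (Or.inl he) e he' rfl
        · have h1 := ((hO2 _).1 he).1
          have h2 := hL e (by simp [he'])
          rw [List.mem_cons, not_or] at h2
          exact h2.1 h1
    obtain ⟨τ, c, cv, hD⟩ := ih hnd' (by
      intro e he
      simp only [List.mem_append] at he
      rcases he with (he | he) | he
      · have h2 := hL e (by simp [he])
        rw [List.mem_cons, not_or] at h2
        exact h2.2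
      · rw [((hO2 _).1 he).1]
        exact hv
      · have h2 := hL e (by simp [he])
        rw [List.mem_cons, not_or] at h2
        exact h2.2)
      (fun ev hev => hOK ev (List.mem_cons_of_mem _ hev)) hvs
    refine vert_step (hirr v) hnd hnd' ?_ ?_ ?_ hv hD
    · intro e; exact hI2 e
    · intro e; exact hO2 e
    · intro e he
      have h2 := hL e he
      rw [List.mem_cons, not_or] at h2
      exact h2

/-- ROWS -/
theorem main : S_ROWS := by
  intro n E es hE hE' hrun hOK hvs hvn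
  have hirr : ∀ v, ¬ E v v := fun v h => (hE v v h).2.2 rfl
  obtain ⟨τ, c, cv, hD⟩ := core hirr hrun List.nodup_nil (by simp) hOK hvs
  refine ⟨τ, c, cv, ?_, ?_⟩
  · intro i hi j hj hij
    exact hD.t1 i ((hvn i).2 hi) j ((hvn j).2 hj) hij
  · intro i j hij
    obtain ⟨hi, hj, -⟩ := hE i j hij
    have hiV := (hvn i).2 hi
    have hjV := (hvn j).2 hj
    refine ⟨hD.t2 i j hij hjV, hD.c1 i j hij hjV hiV, hD.c2 i j hij hjV, ?_, ?_, ?_⟩
    · intro w hw hwi hwj h1 h2
      exact hD.a i j hij hjV w ((hvn w).2 hw) hwi hwj h1 h2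
    · intro k l hkl hne r r1 r2 r3 r4 he
      obtain ⟨w, -, h1, h2, h3⟩ := hD.b i j hij hjV k l hkl ((hvn l).2 (hE k l hkl).2.1) hne r r1
        r2 r3 r4 he
      exact ⟨w, h1, h2, h3⟩
    · refine (Set.encard_le_encard ?_).trans (hD.x i j hij hjV)
      rintro q ⟨q1, q2, q3, q4, q5, q6, q7⟩
      exact ⟨q1, (hvn _).2 (hE _ _ q1).2.1, q2, q3, q4, q5, q6, q7⟩

end Pool.Agent.Helper85.UL
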